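import Pool.Agent.Y489.GE.Stm

/-!
# Closed geodesics from isometric involutions

Helper lemmas: closing a geodesic by an isometry of finite order, and the reflection of a shortest
chord in a closed and relatively open part of the fixed point set of an isometric involution.
-/

set_option autoImplicit false

open Set Topology

namespace Pool.Agent.R203.SY

open Pool.Agent.Y489.GE

variable {X : Type} [MetricSpace X]

theorem ClosedGeod.mono {L L' : ℝ} (h : ClosedGeod X L) (hL : L ≤ L') : ClosedGeod X L' := by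
  obtain ⟨γ, ℓ, h0, h1, h2, h3⟩ := h
  exact ⟨γ, ℓ, h0, h1.trans hL, h2, h3⟩

/-- closing a local geodesic by an isometry of finite order -/
theorem closing (f : X ≃ᵢ X) (k : ℕ) (hk : 1 ≤ k) (hf : f ^ k = 1) (C : ℝ → X) (L ε : ℝ)
    (hL : 0 < L) (hε : 0 < ε)
    (hC : ∀ s ∈ Icc (0 : ℝ) L, ∀ t ∈ Icc (0 : ℝ) L, |s - t| ≤ ε → dist (C s) (C t) = |s - t|)
    (hcor : ∀ s t : ℝ, 0 ≤ s → 0 ≤ t → s ≤ L → t ≤ L → s + t ≤ ε →
      dist (C (L - s)) (f (C t)) = s + t) :
    ClosedGeod X (k * L) := by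
  have hk0 : (0 : ℝ) < k := by exact_mod_cast hk
  set Γ : ℝ → X := fun t => (f ^ ⌊t / L⌋ : X ≃ᵢ X) (C (L * Int.fract (t / L))) with hΓ
  have key : ∀ s t : ℝ, s ≤ t → t - s ≤ min ε (L / 2) → dist (Γ s) (Γ t) = t - s := by
    intro s t hst hd
    have hd1 : t - s ≤ ε := hd.trans (min_le_left _ _)
    have hd2 : t - s ≤ L / 2 := hd.trans (min_le_right _ _)
    have hs0 := Int.fract_nonneg (s / L)
    have hs1 := (Int.fract_lt_one (s / L)).le
    have ht0 := Int.fract_nonneg (t / L)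
    have ht1 := (Int.fract_lt_one (t / L)).le
    have hsL : s = L * ⌊s / L⌋ + L * Int.fract (s / L) := by
      rw [← mul_add, Int.floor_add_fract, mul_div_cancel₀ _ hL.ne']
    have htL : t = L * ⌊t / L⌋ + L * Int.fract (t / L) := by
      rw [← mul_add, Int.floor_add_fract, mul_div_cancel₀ _ hL.ne']
    have hle : ⌊s / L⌋ ≤ ⌊t / L⌋ := Int.floor_le_floor (div_le_div_of_nonneg_right hst hL.le)
    have hlt : ⌊t / L⌋ < ⌊s / L⌋ + 2 := by
      have h1 : t / L ≤ s / L + 1 / 2 := by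
        rw [div_le_iff₀ hL, add_mul, div_mul_cancel₀ _ hL.ne']
        linarith
      have h2 : (⌊t / L⌋ : ℝ) < (⌊s / L⌋ : ℝ) + 2 := by
        have := Int.floor_le (t / L)
        have := Int.lt_floor_add_one (s / L)
        linarith
      exact_mod_cast h2
    rcases hle.eq_or_lt with he | hl
    · have h1 : L * Int.fract (t / L) - L * Int.fract (s / L) = t - s := by
        rw [he] at hsL
        linarith
      simp only [hΓ]
      rw [he, (f ^ ⌊t / L⌋ : X ≃ᵢ X).isometry.dist_eq, hC _ ⟨by positivity, by nlinarith⟩ _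
        ⟨by positivity, by nlinarith⟩ (by
          rw [abs_sub_comm, h1, abs_of_nonneg (by linarith)]
          exact hd1), abs_sub_comm, h1, abs_of_nonneg (by linarith)]
    · have he : ⌊t / L⌋ = ⌊s / L⌋ + 1 := by omega
      have h1 : (L - L * Int.fract (s / L)) + L * Int.fract (t / L) = t - s := by
        rw [he] at htL
        push_cast at htL
        linarith
      have h2 : L * Int.fract (s / L) ≤ L := by nlinarith
      have h3 : L * Int.fract (t / L) ≤ L := by nlinarith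
      simp only [hΓ]
      rw [he, zpow_add_one, IsometryEquiv.mul_apply, (f ^ ⌊s / L⌋ : X ≃ᵢ X).isometry.dist_eq]
      have h4 := hcor (L - L * Int.fract (s / L)) (L * Int.fract (t / L)) (by linarith)
        (by positivity) (by nlinarith) h3 (by rw [h1]; exact hd1)
      rw [sub_sub_cancel] at h4
      rw [h4, h1]
  refine ⟨Γ, k * L, by positivity, le_rfl, ?_, min ε (L / 2), lt_min hε (by linarith), ?_⟩
  · intro t
    have h1 : (t + k * L) / L = t / L + (k : ℤ) := by
      push_cast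
      field_simp
    simp only [hΓ]
    rw [h1, Int.fract_add_intCast, Int.floor_add_intCast, zpow_add, zpow_natCast, hf, mul_one]
  · intro s t hst
    rcases le_total s t with h | h
    · rw [abs_sub_comm, abs_of_nonneg (by linarith)] at hst ⊢
      exact key s t h hst
    · rw [abs_of_nonneg (by linarith)] at hst ⊢
      rw [dist_comm]
      exact key t s h hst

/-- unit speed minimal geodesics -/
theorem exists_geod (hX : GeodSpace X) (x y : X) (hxy : x ≠ y) : ∃ c : ℝ → X, c 0 = x ∧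
    c (dist x y) = y ∧ ∀ s ∈ Icc (0 : ℝ) (dist x y), ∀ t ∈ Icc (0 : ℝ) (dist x y),
      dist (c s) (c t) = |s - t| := by
  have hd : 0 < dist x y := dist_pos.2 hxy
  obtain ⟨c, h0, h1, h2⟩ := hX x y
  refine ⟨fun s => c (s / dist x y), by simp [h0], by simp [hd.ne', h1], ?_⟩
  intro s hs t ht
  have hs' : s / dist x y ∈ Icc (0 : ℝ) 1 := ⟨div_nonneg hs.1 hd.le, (div_le_one hd).2 hs.2⟩
  have ht' : t / dist x y ∈ Icc (0 : ℝ) 1 := ⟨div_nonneg ht.1 hd.le, (div_le_one hd).2 ht.2⟩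
  simp only
  rw [h2 _ hs' _ ht', ← sub_div, abs_div, abs_of_pos hd, div_mul_cancel₀ _ hd.ne']

/-- reflection of a shortest chord -/
theorem reflect {r : ℝ} (hr : 0 < r) (hX : GeodSpace X) (hU : UniqGeod X r) (σ : X → X)
    (hσ : Isometry σ) (hσ2 : ∀ x, σ (σ x) = x) (A : Set X) (hA : ∀ x ∈ A, σ x = x)
    (hAc : IsClosed ({x | σ x = x} \ A)) (b : X) (d : ℝ) (hd : 0 < d)
    (c : ℝ → X) (hc0 : c 0 ∈ A) (hcd : c d = b)
    (hc : ∀ s ∈ Icc (0 : ℝ) d, ∀ t ∈ Icc (0 : ℝ) d, dist (c s) (c t) = |s - t|)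
    (hmin : ∀ a ∈ A, d ≤ dist a b) :
    ∃ ε : ℝ, 0 < ε ∧ ε ≤ d ∧ ∀ s t : ℝ, 0 ≤ s → 0 ≤ t → s ≤ ε → t ≤ ε →
      dist (c s) (σ (c t)) = s + t := by
  have hn : (({x | σ x = x} \ A)ᶜ) ∈ 𝓝 (c 0) := hAc.isOpen_compl.mem_nhds (fun h => h.2 hc0)
  obtain ⟨ρ, hρ, hρA⟩ := Metric.mem_nhds_iff.1 hn
  set ε := min d (min (r / 4) (ρ / 2)) with hε
  have hε0 : 0 < ε := lt_min hd (lt_min (by linarith) (by linarith))
  have hεd : ε ≤ d := min_le_left _ _
  have hεr : ε ≤ r / 4 := (min_le_right _ _).trans (min_le_left _ _)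
  have hερ : ε ≤ ρ / 2 := (min_le_right _ _).trans (min_le_right _ _)
  have hfix : σ (c 0) = c 0 := hA _ hc0
  have h0 : (0 : ℝ) ∈ Icc (0 : ℝ) d := ⟨le_rfl, hd.le⟩
  have hdd : d ∈ Icc (0 : ℝ) d := ⟨hd.le, le_rfl⟩
  -- the diagonal case
  have hdiag : ∀ s : ℝ, 0 ≤ s → s ≤ ε → 2 * s ≤ dist (c s) (σ (c s)) := by
    intro s hs0 hs
    by_contra hlt
    push Not at hlt
    have hsd : s ∈ Icc (0 : ℝ) d := ⟨hs0, hs.trans hεd⟩
    have hs0' : dist (c 0) (c s) = s := by
      rw [hc 0 h0 s hsd, zero_sub, abs_neg, abs_of_nonneg hs0]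
    have hsb : dist (c s) b = d - s := by
      rw [← hcd, hc s hsd d hdd, abs_sub_comm, abs_of_nonneg (by linarith [hsd.2])]
    obtain ⟨g, hg0, hg1, hg⟩ := hX (c s) (σ (c s))
    set z := g (1 / 2) with hz
    set δ := dist (c s) (σ (c s)) with hδ
    have hhalf : (1 / 2 : ℝ) ∈ Icc (0 : ℝ) 1 := ⟨by norm_num, by norm_num⟩
    have hz1 : dist (c s) z = δ / 2 := by
      rw [hz, ← hg0, hg 0 ⟨le_rfl, zero_le_one⟩ _ hhalf, zero_sub, abs_neg,
        abs_of_nonneg (by norm_num : (0 : ℝ) ≤ 1 / 2)]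
      ring
    have hz2 : dist z (σ (c s)) = δ / 2 := by
      rw [hz, ← hg1, hg _ hhalf 1 ⟨zero_le_one, le_rfl⟩, abs_sub_comm,
        abs_of_nonneg (by norm_num : (0 : ℝ) ≤ 1 - 1 / 2)]
      ring
    have hw1 : dist (c s) (σ z) = δ / 2 := by
      rw [← hσ2 (c s), hσ.dist_eq, dist_comm, hz2]
    have hw2 : dist (σ z) (σ (c s)) = δ / 2 := by
      rw [hσ.dist_eq, dist_comm, hz1]
    have hzz : z = σ z := by
      refine hU (c s) (σ (c s)) z (σ z) ?_ ?_ ?_ ?_
      · rw [← hδ]; linarith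
      · rw [hz1, hz2]; ring
      · rw [hw1, hw2]; ring
      · rw [hz1, hw1]
    have hzA : z ∈ A := by
      by_contra hzA
      have h1 : z ∈ Metric.ball (c 0) ρ := by
        rw [Metric.mem_ball, dist_comm]
        have := dist_triangle (c 0) (c s) z
        linarith
      exact hρA h1 ⟨hzz.symm, hzA⟩
    have h2 := hmin z hzA
    have h3 := dist_triangle z (c s) b
    rw [dist_comm z (c s), hz1, hsb] at h3
    linarith
  refine ⟨ε, hε0, hεd, ?_⟩
  intro s t hs0 ht0 hs ht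
  have hsd : s ∈ Icc (0 : ℝ) d := ⟨hs0, hs.trans hεd⟩
  have htd : t ∈ Icc (0 : ℝ) d := ⟨ht0, ht.trans hεd⟩
  refine le_antisymm ?_ ?_
  · have h1 := dist_triangle (c s) (c 0) (σ (c t))
    have h2 : dist (c 0) (σ (c t)) = t := by
      nth_rewrite 1 [← hfix]
      rw [hσ.dist_eq, hc 0 h0 t htd, zero_sub, abs_neg, abs_of_nonneg ht0]
    rw [h2, hc s hsd 0 h0, sub_zero, abs_of_nonneg hs0] at h1
    exact h1
  · rcases le_total s t with h | h
    · have h1 := hdiag t ht0 ht
      have h2 := dist_triangle (c t) (c s) (σ (c t))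
      rw [hc t htd s hsd, abs_of_nonneg (by linarith)] at h2
      linarith
    · have h1 := hdiag s hs0 hs
      have h2 := dist_triangle (c s) (σ (c t)) (σ (c s))
      rw [hσ.dist_eq, hc t htd s hsd, abs_sub_comm, abs_of_nonneg (by linarith)] at h2
      linarith

/-- isometries of finite order without fixed points -/
theorem no_fixed [CompactSpace X] (hX : GeodSpace X) (f : X ≃ᵢ X) (k : ℕ) (hk : 1 ≤ k)
    (hf : f ^ k = 1) (hne : ∀ x, f x ≠ x) (x : X) : ClosedGeod X (k * dist x (f x)) := by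
  have hk0 : (0 : ℝ) < k := by exact_mod_cast hk
  have hcont : Continuous fun y => dist y (f y) := continuous_id.dist f.continuous
  obtain ⟨a, -, ha⟩ := isCompact_univ.exists_isMinOn ⟨x, mem_univ x⟩ hcont.continuousOn
  have hmin : ∀ y, dist a (f a) ≤ dist y (f y) := fun y => ha (mem_univ y)
  have hd : 0 < dist a (f a) := dist_pos.2 (hne a).symm
  obtain ⟨c, h0, h1, h2⟩ := exists_geod hX a (f a) (hne a).symm
  set d := dist a (f a) with hdd
  have hcl := closing f k hk hf c d d hd hd (fun s hs t ht _ => h2 s hs t ht) (by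
    intro s t hs0 ht0 hs ht hst
    have hs' : d - s ∈ Icc (0 : ℝ) d := ⟨by linarith, by linarith⟩
    have ht' : t ∈ Icc (0 : ℝ) d := ⟨ht0, ht⟩
    refine le_antisymm ?_ ?_
    · have h3 := dist_triangle (c (d - s)) (c d) (f (c t))
      have h4 : dist (c d) (f (c t)) = t := by
        rw [h1, ← h0, f.isometry.dist_eq, h2 0 ⟨le_rfl, hd.le⟩ t ht', zero_sub, abs_neg,
          abs_of_nonneg ht0]
      rw [h4, h2 _ hs' d ⟨hd.le, le_rfl⟩, sub_sub_cancel_left, abs_neg, abs_of_nonneg hs0] at h3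
      exact h3
    · have h3 := dist_triangle (c t) (c (d - s)) (f (c t))
      have h4 := hmin (c t)
      rw [h2 t ht' _ hs', abs_sub_comm, abs_of_nonneg (by linarith)] at h3
      linarith)
  exact ClosedGeod.mono hcl (mul_le_mul_of_nonneg_left (hmin x) hk0.le)

/-- two involutions -/
theorem two_inv [CompactSpace X] {r : ℝ} (hr : 0 < r) (hX : GeodSpace X) (hU : UniqGeod X r)
    (σ τ : X ≃ᵢ X) (hσ : σ * σ = 1) (hτ : τ * τ = 1) (k : ℕ) (hk : 1 ≤ k)
    (hf : (σ * τ) ^ k = 1) (A B : Set X) (hA : ∀ x ∈ A, σ x = x) (hB : ∀ x ∈ B, τ x = x)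
    (hAc : IsClosed A) (hBc : IsClosed B) (hAo : IsClosed ({x | σ x = x} \ A))
    (hBo : IsClosed ({x | τ x = x} \ B)) (hdis : Disjoint A B) :
    ∀ a ∈ A, ∀ b ∈ B, ClosedGeod X (2 * k * dist a b) := by
  intro a' ha' b' hb'
  have hk0 : (0 : ℝ) < k := by exact_mod_cast hk
  have hcont : Continuous fun y : X × X => dist y.1 y.2 := continuous_fst.dist continuous_snd
  obtain ⟨⟨a, b⟩, ⟨ha, hb⟩, hab⟩ := (hAc.isCompact.prod hBc.isCompact).exists_isMinOn
    ⟨(a', b'), ha', hb'⟩ hcont.continuousOn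
  have hmin : ∀ x ∈ A, ∀ y ∈ B, dist a b ≤ dist x y := fun x hx y hy =>
    hab (show (x, y) ∈ A ×ˢ B from ⟨hx, hy⟩)
  simp only at ha hb
  have hne : a ≠ b := fun h => (Set.disjoint_left.1 hdis) ha (h ▸ hb)
  obtain ⟨c, h0, h1, h2⟩ := exists_geod hX a b hne
  set d := dist a b with hd
  have hd0 : 0 < d := dist_pos.2 hne
  have hσ2 : ∀ x, σ (σ x) = x := fun x => by
    rw [← IsometryEquiv.mul_apply, hσ]; rfl
  have hτ2 : ∀ x, τ (τ x) = x := fun x => by
    rw [← IsometryEquiv.mul_apply, hτ]; rfl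
  obtain ⟨ε₁, hε₁, hε₁d, hr1⟩ := reflect hr hX hU σ σ.isometry hσ2 A hA hAo b d hd0 c
    (by rw [h0]; exact ha) h1 h2 (fun x hx => hmin x hx b hb)
  obtain ⟨ε₂, hε₂, hε₂d, hr2⟩ := reflect hr hX hU τ τ.isometry hτ2 B hB hBo a d hd0
    (fun s => c (d - s)) (by rw [sub_zero, h1]; exact hb) (by rw [sub_self, h0])
    (fun s hs t ht => by
      rw [h2 _ ⟨by linarith [hs.2], by linarith [hs.1]⟩ _ ⟨by linarith [ht.2], by linarith [ht.1]⟩,
        sub_sub_sub_cancel_left, abs_sub_comm])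
    (fun y hy => by rw [dist_comm]; exact hmin a ha y hy)
  set f : X ≃ᵢ X := τ * σ with hfdef
  have hfk : f ^ k = 1 := by
    have h3 : f = τ * (σ * τ) * τ⁻¹ := by
      rw [hfdef]; group
    rw [h3, conj_pow, hf, mul_one, mul_inv_cancel]
  set C : ℝ → X := fun t => if t ≤ d then c t else τ (c (2 * d - t)) with hC
  set ε := min ε₁ ε₂ with hε
  have hε0 : 0 < ε := lt_min hε₁ hε₂
  have he1 : ε ≤ ε₁ := min_le_left _ _
  have he2 : ε ≤ ε₂ := min_le_right _ _
  have hkey : ∀ s ∈ Icc (0 : ℝ) (2 * d), ∀ t ∈ Icc (0 : ℝ) (2 * d), s ≤ t → t - s ≤ ε →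
      dist (C s) (C t) = t - s := by
    intro s hs t ht hst hle
    simp only [hC]
    split_ifs with h3 h4 h4
    · rw [h2 s ⟨hs.1, h3⟩ t ⟨ht.1, h4⟩, abs_sub_comm, abs_of_nonneg (by linarith)]
    · push Not at h4
      have h5 := hr2 (d - s) (t - d) (by linarith) (by linarith) (by linarith) (by linarith)
      simp only [sub_sub_cancel] at h5
      rw [show 2 * d - t = d - (t - d) by ring, h5]
      ring
    · exact absurd (hst.trans h4) h3
    · push Not at h3 h4
      rw [τ.isometry.dist_eq, h2 _ ⟨by linarith [hs.2], by linarith⟩ _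
        ⟨by linarith [ht.2], by linarith⟩, sub_sub_sub_cancel_left, abs_of_nonneg (by linarith)]
  have hcl := closing f k hk hfk C (2 * d) ε (by linarith) hε0 (by
    intro s hs t ht hst
    rcases le_total s t with h | h
    · rw [abs_sub_comm, abs_of_nonneg (by linarith)] at hst ⊢
      exact hkey s hs t ht h hst
    · rw [abs_of_nonneg (by linarith)] at hst ⊢
      rw [dist_comm]
      exact hkey t ht s hs h hst) (by
    intro s t hs0 ht0 hs ht hst
    have hsε : s ≤ ε₁ := by linarith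
    have htε : t ≤ ε₁ := by linarith
    have hCt : C t = c t := by
      simp only [hC]
      rw [if_pos (by linarith)]
    have hCs : C (2 * d - s) = τ (c s) := by
      simp only [hC]
      split_ifs with h3
      · have h4 : s = d := by linarith
        have h5 : c d = b := h1
        rw [h4, show 2 * d - d = d by ring, h5, hB b hb]
      · rw [sub_sub_cancel]
    rw [hCt, hCs, hfdef, IsometryEquiv.mul_apply, τ.isometry.dist_eq]
    exact hr1 s t hs0 ht0 hsε htε)
  refine ClosedGeod.mono hcl ?_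
  have := hmin a' ha' b' hb'
  nlinarith

end Pool.Agent.R203.SY
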